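import Pool.Agent.Helper50.MB.Goals

/-!
# Packet MB-FC (MP_fda85d_co): fundamental cuts.
-/

set_option autoImplicit false

namespace Pool.Agent.Helper87.MB

open Pool.Agent.Helper50.MB

theorem card_ne {α : Type} [Fintype α] [DecidableEq α] (a : α) :
    Fintype.card {x : α // x ≠ a} = Fintype.card α - 1 := by
  rw [Fintype.card_subtype, Finset.filter_ne', Finset.card_erase_of_mem (Finset.mem_univ _)]
  rfl

theorem level {F E : Type} {qs qt : E → F} {d : F → ℕ} {par : F → F} {p : F → E} {h : F}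
    (hP : PE qs qt d par p h) : max (d (qs (p h))) (d (qt (p h))) = d h := by
  obtain ⟨h1, h2⟩ := hP
  rcases h2 with ⟨h3, h4⟩ | ⟨h3, h4⟩ <;> rw [h3, h4, h1] <;> omega

theorem goalFC (hBFS : BFS) (hTREE : TREE) (hEV : EV) : FC := by
  classical
  intro X F E _ _ _ gs gt qs qt x0 f0 hX hgc hqc hcard heven
  have hF1 : 1 ≤ Fintype.card F := Fintype.card_pos_iff.2 ⟨f0⟩
  have hE : Nonempty E := Fintype.card_pos_iff.1 (by omega)
  obtain ⟨d, par, p, hd0, hpar0, hdd, hPE, hpinj⟩ := hBFS F E qs qt f0 hqc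
  obtain ⟨T1, T2, T3, T4⟩ := hTREE F E qs qt f0 d par p hpar0 hPE
  -- the edges not in the dual tree
  have hcT : Fintype.card {e : E // ∃ h, h ≠ f0 ∧ p h = e} = Fintype.card F - 1 := by
    rw [← card_ne f0]
    refine (Fintype.card_congr (Equiv.ofBijective
      (fun h : {h : F // h ≠ f0} ↦ (⟨p h.1, h.1, h.2, rfl⟩ : {e : E // ∃ h, h ≠ f0 ∧ p h = e}))
      ⟨?_, ?_⟩)).symm
    · intro h h' hh
      exact Subtype.ext (hpinj _ _ h.2 h'.2 (congrArg Subtype.val hh))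
    · rintro ⟨e, h, hh, rfl⟩
      exact ⟨⟨h, hh⟩, rfl⟩
  have hcE : Fintype.card {e : E // ¬ ∃ h, h ≠ f0 ∧ p h = e} = Fintype.card X - 1 := by
    rw [Fintype.card_subtype_compl, hcT]
    omega
  have hE' : Nonempty {e : E // ¬ ∃ h, h ≠ f0 ∧ p h = e} :=
    Fintype.card_pos_iff.1 (by omega)
  -- the key parity argument
  have key : ∀ A : X → Prop, ∀ h, h ≠ f0 → ∀ e₀ : E, e₀ ≠ p h →
      (∀ e : E, (¬ ∃ h, h ≠ f0 ∧ p h = e) → ¬ (A (gs e) ↔ A (gt e)) → e = e₀) →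
      ¬ (A (gs (p h)) ↔ A (gt (p h))) →
      ¬ (A (gs e₀) ↔ A (gt e₀)) ∧ ¬ (Dsc par h (qs e₀) ↔ Dsc par h (qt e₀)) := by
    intro A h hh e₀ hne hA hcut
    have hev := hEV X F E gs gt qs qt heven A (Dsc par h)
    by_contra hc
    have hS : {e | ¬ (A (gs e) ↔ A (gt e)) ∧ ¬ (Dsc par h (qs e) ↔ Dsc par h (qt e))} = {p h} := by
      ext e
      rw [Set.mem_singleton_iff]
      constructor
      · rintro ⟨h1, h2⟩
        by_cases hT : ∃ w, w ≠ f0 ∧ p w = e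
        · obtain ⟨w, hw, rfl⟩ := hT
          by_cases hwh : w = h
          · rw [hwh]
          · exact absurd (T2 h w hh hw hwh) h2
        · have := hA e hT h1
          subst this
          exact absurd ⟨h1, h2⟩ hc
      · rintro rfl
        exact ⟨hcut, T3 h hh⟩
    rw [hS, Set.ncard_singleton] at hev
    exact absurd hev (by decide)
  -- connectedness of the complement
  have hconn : Cnd (fun e : {e : E // ¬ ∃ h, h ≠ f0 ∧ p h = e} ↦ gs e.1)
      (fun e : {e : E // ¬ ∃ h, h ≠ f0 ∧ p h = e} ↦ gt e.1) := by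
    intro x y
    set A : X → Prop := fun z ↦ Relation.ReflTransGen
      (Adj (fun e : {e : E // ¬ ∃ h, h ≠ f0 ∧ p h = e} ↦ gs e.1)
        (fun e : {e : E // ¬ ∃ h, h ≠ f0 ∧ p h = e} ↦ gt e.1)) x z with hAdef
    have hA1 : ∀ e : E, (¬ ∃ h, h ≠ f0 ∧ p h = e) → (A (gs e) ↔ A (gt e)) := by
      intro e he
      constructor
      · intro h
        exact h.tail ⟨⟨e, he⟩, Or.inl ⟨rfl, rfl⟩⟩
      · intro h
        exact h.tail ⟨⟨e, he⟩, Or.inr ⟨rfl, rfl⟩⟩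
    have hA2 : ∀ e : E, (A (gs e) ↔ A (gt e)) := by
      intro e
      by_cases hT : ∃ w, w ≠ f0 ∧ p w = e
      · obtain ⟨w, hw, rfl⟩ := hT
        by_contra hc
        obtain ⟨⟨e₀, he₀⟩⟩ := hE'
        have hne : e₀ ≠ p w := fun h ↦ he₀ ⟨w, hw, h.symm⟩
        have := key A w hw e₀ hne (fun e he h ↦ absurd (hA1 e he) h) hc
        exact this.1 (hA1 e₀ he₀)
      · exact hA1 e hT
    have hA3 : ∀ z, Relation.ReflTransGen (Adj gs gt) x z → A z := by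
      intro z hz
      induction hz with
      | refl => exact Relation.ReflTransGen.refl
      | tail _ hbc ih =>
        obtain ⟨e, ⟨h1, h2⟩ | ⟨h1, h2⟩⟩ := hbc
        · rw [← h2, ← hA2 e, h1]; exact ih
        · rw [← h1, hA2 e, h2]; exact ih
    exact hA3 y (hgc x y)
  obtain ⟨dx, px, ex', hdx0, hpx0, hdxx, hPEx, hexinj⟩ := hBFS X _ _ _ x0 hconn
  obtain ⟨S1, S2, S3, S4⟩ := hTREE X _ _ _ x0 dx px ex' hpx0 hPEx
  have hsurj : ∀ e : {e : E // ¬ ∃ h, h ≠ f0 ∧ p h = e}, ∃ v, v ≠ x0 ∧ ex' v = e := by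
    have hb : Function.Bijective (fun v : {v : X // v ≠ x0} ↦ ex' v.1) := by
      rw [Fintype.bijective_iff_injective_and_card]
      refine ⟨fun v w hvw ↦ Subtype.ext (hexinj _ _ v.2 w.2 hvw), ?_⟩
      rw [hcE, card_ne]
    intro e
    obtain ⟨v, hv⟩ := hb.2 e
    exact ⟨v.1, v.2, hv⟩
  refine ⟨d, dx, px, fun x ↦ (ex' x).1, hdd, hpx0, fun x hx ↦ hPEx x hx,
    fun x y hx hy h ↦ hexinj x y hx hy (Subtype.ext h), ?_⟩
  intro v hv m n
  have hone : ∀ e : E, (¬ ∃ h, h ≠ f0 ∧ p h = e) →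
      ¬ (Dsc px v (gs e) ↔ Dsc px v (gt e)) → e = (ex' v).1 := by
    intro e he hc
    obtain ⟨w, hw, hwe⟩ := hsurj ⟨e, he⟩
    by_cases hwv : w = v
    · rw [← hwv, hwe]
    · have := S2 v w hv hw hwv
      rw [hwe] at this
      exact absurd this hc
  have hbound : ∀ f : F, {h | h ≠ f0 ∧ (m ≤ d h ∧ d h ≤ n) ∧ Dsc par h f}.ncard ≤ n + 1 - m := by
    intro f
    have := Set.ncard_le_ncard_of_injOn (s := {h | h ≠ f0 ∧ (m ≤ d h ∧ d h ≤ n) ∧ Dsc par h f})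
      (t := (Finset.Icc m n : Set ℕ)) d (fun h hh ↦ by
        rw [Finset.coe_Icc, Set.mem_Icc]; exact hh.2.1)
      (fun h hh h' hh' he ↦ T4 f h h' hh.1 hh'.1 hh.2.2 hh'.2.2 he) (Finset.finite_toSet _)
    rwa [Set.ncard_coe_finset, Nat.card_Icc] at this
  have hsub : {e | ¬ (Dsc px v (gs e) ↔ Dsc px v (gt e)) ∧
      m ≤ max (d (qs e)) (d (qt e)) ∧ max (d (qs e)) (d (qt e)) ≤ n} ⊆
      {(ex' v).1} ∪ (p '' {h | h ≠ f0 ∧ (m ≤ d h ∧ d h ≤ n) ∧ Dsc par h (qs (ex' v).1)} ∪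
        p '' {h | h ≠ f0 ∧ (m ≤ d h ∧ d h ≤ n) ∧ Dsc par h (qt (ex' v).1)}) := by
    rintro e ⟨h1, h2, h3⟩
    by_cases hT : ∃ w, w ≠ f0 ∧ p w = e
    · right
      obtain ⟨h, hh, rfl⟩ := hT
      have hne : (ex' v).1 ≠ p h := fun he ↦ (ex' v).2 ⟨h, hh, he.symm⟩
      have hk := (key (Dsc px v) h hh (ex' v).1 hne hone h1).2
      rw [level (hPE h hh)] at h2 h3
      by_cases hD : Dsc par h (qs (ex' v).1)
      · left
        exact ⟨h, ⟨hh, ⟨h2, h3⟩, hD⟩, rfl⟩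
      · right
        refine ⟨h, ⟨hh, ⟨h2, h3⟩, ?_⟩, rfl⟩
        by_contra hD'
        exact hk ⟨fun h ↦ absurd h hD, fun h ↦ absurd h hD'⟩
    · left
      exact hone e hT h1
  calc _ ≤ _ := Set.ncard_le_ncard hsub (Set.toFinite _)
    _ ≤ _ := Set.ncard_union_le _ _
    _ ≤ 1 + ((p '' {h | h ≠ f0 ∧ (m ≤ d h ∧ d h ≤ n) ∧ Dsc par h (qs (ex' v).1)}).ncard +
        (p '' {h | h ≠ f0 ∧ (m ≤ d h ∧ d h ≤ n) ∧ Dsc par h (qt (ex' v).1)}).ncard) := by
        rw [Set.ncard_singleton]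
        exact Nat.add_le_add_left (Set.ncard_union_le _ _) _
    _ ≤ 1 + ((n + 1 - m) + (n + 1 - m)) := by
        refine Nat.add_le_add_left (Nat.add_le_add ?_ ?_) _
        · exact (Set.ncard_image_le (Set.toFinite _)).trans (hbound _)
        · exact (Set.ncard_image_le (Set.toFinite _)).trans (hbound _)
    _ = _ := by omega

end Pool.Agent.Helper87.MB
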