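import Pool.Agent.Helper59.MB.Goals1

/-!
Packet MB-AVG (MP_49a1ce_an): uniform averages of the tests.
-/

set_option autoImplicit false

open MeasureTheory Filter Topology Finset

namespace Pool.Agent.Helper87.MB

open Pool.Agent.Helper59.MB

noncomputable section

lemma sum_block (R : ℕ) (M : ℕ) (f : ℕ → ℝ) :
    ∑ i ∈ Ico M (M + R), f (i % R) = ∑ ρ ∈ range R, f ρ := by
  rw [← Nat.image_Ico_mod M R, Finset.sum_image]
  exact Nat.mod_injOn_Ico M R

lemma sum_per (R : ℕ) (hR : 0 < R) (f : ℕ → ℝ) (hf : ∀ ρ, 0 ≤ f ρ ∧ f ρ ≤ 1) (M : ℕ) :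
    ∀ N : ℕ, |∑ n ∈ Icc 1 N, f ((M + n) % R) - (∑ ρ ∈ range R, f ρ) / R * N| ≤ R := by
  have hRr : (0 : ℝ) < R := by exact_mod_cast hR
  set S : ℝ := ∑ ρ ∈ range R, f ρ with hS
  have hS0 : 0 ≤ S := Finset.sum_nonneg fun ρ _ => (hf ρ).1
  have hS1 : S ≤ R := by
    calc S ≤ ∑ _ρ ∈ range R, (1 : ℝ) := Finset.sum_le_sum fun ρ _ => (hf ρ).2
      _ = R := by simp
  have hSR0 : 0 ≤ S / R := div_nonneg hS0 hRr.le
  have hSR1 : S / R ≤ 1 := (div_le_one hRr).2 hS1
  intro N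
  induction N using Nat.strong_induction_on with
  | _ N ih =>
    by_cases hN : N < R
    · have h0 : 0 ≤ ∑ n ∈ Icc 1 N, f ((M + n) % R) := Finset.sum_nonneg fun n _ => (hf _).1
      have h1 : ∑ n ∈ Icc 1 N, f ((M + n) % R) ≤ N := by
        calc ∑ n ∈ Icc 1 N, f ((M + n) % R) ≤ ∑ _n ∈ Icc 1 N, (1 : ℝ) :=
              Finset.sum_le_sum fun n _ => (hf _).2
          _ = N := by simp
      have hNr : (N : ℝ) ≤ R := by exact_mod_cast hN.le
      have hN0 : (0 : ℝ) ≤ N := Nat.cast_nonneg _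
      have h2 : 0 ≤ S / R * N := mul_nonneg hSR0 hN0
      have h3 : S / R * N ≤ N := by nlinarith
      rw [abs_le]
      constructor <;> linarith
    · push Not at hN
      have hlt : N - R < N := by omega
      have h4 := ih (N - R) hlt
      have hsplit : ∑ n ∈ Icc 1 N, f ((M + n) % R)
          = ∑ n ∈ Icc 1 (N - R), f ((M + n) % R) + S := by
        have h5 : ∑ n ∈ Icc 1 N, f ((M + n) % R)
            = ∑ n ∈ Ico 1 (N - R + 1), f ((M + n) % R)
              + ∑ n ∈ Ico (N - R + 1) (N + 1), f ((M + n) % R) := by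
          rw [Finset.sum_Ico_consecutive _ (by omega) (by omega)]
          rfl
        have h6 : ∑ n ∈ Ico (N - R + 1) (N + 1), f ((M + n) % R) = S := by
          rw [hS, ← sum_block R (M + (N - R + 1)) f]
          rw [show M + (N - R + 1) + R = (N + 1) + M by omega,
            show M + (N - R + 1) = (N - R + 1) + M by omega, ← Finset.sum_Ico_add' _ _ _ M]
          refine Finset.sum_congr rfl fun n _ => ?_
          rw [add_comm]
        rw [h5, h6]
        rfl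
      have hcast : ((N - R : ℕ) : ℝ) = (N : ℝ) - R := by
        rw [Nat.cast_sub hN]
      rw [hsplit]
      rw [hcast] at h4
      have h7 : ∑ n ∈ Icc 1 (N - R), f ((M + n) % R) + S - S / R * N
          = ∑ n ∈ Icc 1 (N - R), f ((M + n) % R) - S / R * ((N : ℝ) - R) := by
        field_simp
        ring
      rw [h7]
      exact h4

/-- the mean of the expected values. -/
def cc (s : ℕ → ℕ) (V : ℕ → Set (ℕ → ℝ)) (m : Measure A) [IsProbabilityMeasure m] (l k : ℕ) : ℝ :=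
  (∑ ρ ∈ range (P s k), E s V m k l ρ) / P s k

theorem t_AVG (hSUM : S_SUM) (hMNS : S_MNS) (hPHS : S_PHS) : S_AVG := by
  intro s V m _ hPar l
  have hmono : StrictMono s := (hPar 0).mono
  have hE : ∀ k l ρ : ℕ, 0 ≤ E s V m k l ρ ∧ E s V m k l ρ ≤ 1 := (hMNS s V m 0 (hPar 0)).1
  have hP : ∀ k, 0 < P s k := fun k => by unfold P; positivity
  -- the basic estimate
  have hbase : ∀ k, l ≤ k → ∀ x ∈ X s V m, ∀ N : ℕ,
      |∑ n ∈ Icc 1 N, Th s l ((⇑TB)^[n] x) - cc s V m l k * N| ≤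
        (N + 2 * P s (k + 1)) / (k + 1) + P s k := by
    intro k hk x hx N
    have h1 := hSUM s V m hmono x hx l k N (fun _ => 1) hk fun a _ _ => (hPar 0).one k
    have h2 : ∀ n : ℕ, ph (s k) (x.2 + (n : ℤ_[2])) = (ph (s k) x.2 + n) % P s k := by
      intro n
      have h3 := hPHS.2.1 (s k) x.2 (n : ℤ)
      rw [Int.cast_natCast] at h3
      unfold P
      exact_mod_cast h3
    have h4 := sum_per (P s k) (hP k) (fun ρ => E s V m k l ρ) (fun ρ => hE k l ρ)
      (ph (s k) x.2) N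
    have h5 : ∑ n ∈ Icc 1 N, (Th s l ((⇑TB)^[n] x) - E s V m k l (ph (s k) (x.2 + (n : ℤ_[2])))) *
        (1 : ℝ) = ∑ n ∈ Icc 1 N, Th s l ((⇑TB)^[n] x)
          - ∑ n ∈ Icc 1 N, E s V m k l ((ph (s k) x.2 + n) % P s k) := by
      rw [← Finset.sum_sub_distrib]
      refine Finset.sum_congr rfl fun n _ => ?_
      rw [h2 n, mul_one]
    have h1' : |∑ n ∈ Icc 1 N, Th s l ((⇑TB)^[n] x)
          - ∑ n ∈ Icc 1 N, E s V m k l ((ph (s k) x.2 + n) % P s k)| ≤
        (N + 2 * P s (k + 1)) / (k + 1) := by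
      rw [← h5]
      exact h1
    unfold cc
    calc |∑ n ∈ Icc 1 N, Th s l ((⇑TB)^[n] x)
          - (∑ ρ ∈ range (P s k), E s V m k l ρ) / P s k * N|
        ≤ |∑ n ∈ Icc 1 N, Th s l ((⇑TB)^[n] x)
          - ∑ n ∈ Icc 1 N, E s V m k l ((ph (s k) x.2 + n) % P s k)|
          + |∑ n ∈ Icc 1 N, E s V m k l ((ph (s k) x.2 + n) % P s k)
          - (∑ ρ ∈ range (P s k), E s V m k l ρ) / P s k * N| := abs_sub_le _ _ _
      _ ≤ _ := add_le_add h1' h4
  by_cases hX : ∃ x0, x0 ∈ X s V m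
  · obtain ⟨x0, hx0⟩ := hX
    -- the constants are close to each other
    have hclose : ∀ k k', l ≤ k → l ≤ k' →
        cc s V m l k - cc s V m l k' ≤ 1 / ((k : ℝ) + 1) + 1 / ((k' : ℝ) + 1) := by
      intro k k' hk hk'
      by_contra hcon
      push Not at hcon
      set C : ℝ := 2 * P s (k + 1) / ((k : ℝ) + 1) + P s k + (2 * P s (k' + 1) / ((k' : ℝ) + 1)
        + P s k') with hC
      set δ : ℝ := cc s V m l k - cc s V m l k' - (1 / ((k : ℝ) + 1) + 1 / ((k' : ℝ) + 1)) with hδ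
      have hδ0 : 0 < δ := by
        rw [hδ]
        linarith
      obtain ⟨N, hN⟩ := exists_nat_gt (C / δ)
      have h1 := hbase k hk x0 hx0 N
      have h2 := hbase k' hk' x0 hx0 N
      rw [abs_le] at h1 h2
      have h3 : (cc s V m l k - cc s V m l k') * N ≤
          ((N : ℝ) + 2 * P s (k + 1)) / (k + 1) + P s k
            + (((N : ℝ) + 2 * P s (k' + 1)) / (k' + 1) + P s k') := by
        nlinarith [h1.1, h2.2]
      have h4 : δ * N ≤ C := by
        have e1 : δ * N = (cc s V m l k - cc s V m l k') * N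
            - (1 / ((k : ℝ) + 1) + 1 / ((k' : ℝ) + 1)) * N := by
          rw [hδ]
          ring
        have e2 : ((N : ℝ) + 2 * P s (k + 1)) / (k + 1) + P s k
            + (((N : ℝ) + 2 * P s (k' + 1)) / (k' + 1) + P s k')
            = C + (1 / ((k : ℝ) + 1) + 1 / ((k' : ℝ) + 1)) * N := by
          rw [hC]
          ring
        rw [e1]
        linarith
      rw [div_lt_iff₀ hδ0] at hN
      linarith
    set T : Set ℝ := {r | ∃ k, l ≤ k ∧ r = cc s V m l k - 1 / ((k : ℝ) + 1)} with hT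
    have hTne : T.Nonempty := ⟨_, l, le_rfl, rfl⟩
    have hub : ∀ k', l ≤ k' → cc s V m l k' + 1 / ((k' : ℝ) + 1) ∈ upperBounds T := by
      rintro k' hk' r ⟨k, hk, rfl⟩
      have := hclose k k' hk hk'
      linarith
    have hbdd : BddAbove T := ⟨_, hub l le_rfl⟩
    have hlow : ∀ k, l ≤ k → cc s V m l k - 1 / ((k : ℝ) + 1) ≤ sSup T :=
      fun k hk => le_csSup hbdd ⟨k, hk, rfl⟩
    have hup : ∀ k, l ≤ k → sSup T ≤ cc s V m l k + 1 / ((k : ℝ) + 1) :=
      fun k hk => csSup_le hTne (hub k hk)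
    refine ⟨sSup T, ?_⟩
    intro ε hε
    obtain ⟨k0, hk0⟩ := exists_nat_gt (4 / ε)
    set k := max l k0 with hk
    have hlk : l ≤ k := le_max_left _ _
    have hk0k : (k0 : ℝ) ≤ k := by exact_mod_cast le_max_right _ _
    have hk1 : (0 : ℝ) < (k : ℝ) + 1 := by positivity
    have hsmall : 2 / ((k : ℝ) + 1) ≤ ε / 2 := by
      rw [div_lt_iff₀ hε] at hk0
      rw [div_le_iff₀ hk1]
      nlinarith
    set C : ℝ := 2 * P s (k + 1) / ((k : ℝ) + 1) + P s k with hC
    obtain ⟨N₀, hN₀⟩ := exists_nat_gt (C / (ε / 2))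
    refine ⟨N₀, ?_⟩
    intro N hN x hx
    have hNr : (N₀ : ℝ) ≤ N := by exact_mod_cast hN
    have hN0 : (0 : ℝ) ≤ N := Nat.cast_nonneg _
    have hCN : C ≤ ε / 2 * N := by
      rw [div_lt_iff₀ (by linarith)] at hN₀
      nlinarith
    have h1 := hbase k hlk x hx N
    have h2 : |cc s V m l k - sSup T| ≤ 1 / ((k : ℝ) + 1) := by
      rw [abs_le]
      constructor <;> linarith [hlow k hlk, hup k hlk]
    have h3 : |cc s V m l k * N - sSup T * N| ≤ 1 / ((k : ℝ) + 1) * N := by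
      rw [← sub_mul, abs_mul, abs_of_nonneg hN0]
      exact mul_le_mul_of_nonneg_right h2 hN0
    calc |∑ n ∈ Icc 1 N, Th s l ((⇑TB)^[n] x) - sSup T * N|
        ≤ |∑ n ∈ Icc 1 N, Th s l ((⇑TB)^[n] x) - cc s V m l k * N|
          + |cc s V m l k * N - sSup T * N| := abs_sub_le _ _ _
      _ ≤ ((N : ℝ) + 2 * P s (k + 1)) / (k + 1) + P s k + 1 / ((k : ℝ) + 1) * N := add_le_add h1 h3
      _ = 2 / ((k : ℝ) + 1) * N + C := by
        rw [hC]
        ring
      _ ≤ ε / 2 * N + ε / 2 * N := add_le_add (mul_le_mul_of_nonneg_right hsmall hN0) hCN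
      _ = ε * N := by ring
  · refine ⟨0, fun ε _ => ⟨0, fun N _ x hx => absurd ⟨x, hx⟩ hX⟩⟩

end

end Pool.Agent.Helper87.MB
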