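import Pool.Agent.Helper59.MB.Goals3

/-!
S_ZEA of the project MB: a subshift with subexponential complexity has topological entropy zero.
-/

set_option autoImplicit false

open Filter Topology

namespace Pool.Agent.Helper87.MB

open Pool.Agent.Helper59.MB

theorem basic_ent (U : Set ((ℤ → ℤ) × (ℤ → ℤ))) (hU : U ∈ uniformity (ℤ → ℤ)) :
    ∃ M : ℕ, ∀ x y : ℤ → ℤ, (∀ i : ℤ, -(M : ℤ) ≤ i → i ≤ M → x i = y i) → (x, y) ∈ U := by
  rw [Pi.uniformity] at hU
  obtain ⟨t, ht⟩ := (Filter.mem_iInf_finite _).1 hU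
  simp only [DiscreteUniformity.eq_principal_setRelId, Filter.comap_principal,
    Filter.iInf_principal_finset, Filter.mem_principal] at ht
  refine ⟨t.sup Int.natAbs, fun x y h => ht ?_⟩
  simp only [Set.mem_iInter, Set.mem_preimage]
  intro i hi
  have h1 : i.natAbs ≤ t.sup Int.natAbs := Finset.le_sup (f := Int.natAbs) hi
  have h2 := h i (by omega) (by omega)
  simpa using h2

theorem iter_apply (k : ℕ) (y : ℤ → ℤ) (n : ℤ) : (⇑shZ)^[k] y n = y (n + k) := by
  induction k generalizing y n with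
  | zero => simp
  | succ k ih =>
    rw [Function.iterate_succ_apply, ih]
    show y (n + k + 1) = _
    congr 1
    push_cast
    ring

theorem mem_iter {K : Set (ℤ → ℤ)} (hK : ∀ y, shZ y ∈ K ↔ y ∈ K) (k : ℕ) (y : ℤ → ℤ) :
    (⇑shZ)^[k] y ∈ K ↔ y ∈ K := by
  induction k generalizing y with
  | zero => simp
  | succ k ih => rw [Function.iterate_succ_apply, ih, hK]

theorem mem_back {K : Set (ℤ → ℤ)} (hK : ∀ y, shZ y ∈ K ↔ y ∈ K) (M : ℕ) {x : ℤ → ℤ}
    (hx : x ∈ K) : (fun n : ℤ => x (n - M)) ∈ K := by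
  rw [← mem_iter hK M]
  have : (⇑shZ)^[M] (fun n : ℤ => x (n - M)) = x := by
    funext n
    rw [iter_apply]
    simp
  rw [this]
  exact hx

/-- the words of length `n` of the set `K` -/
def wK (K : Set (ℤ → ℤ)) (n : ℕ) : Set (Fin n → ℤ) := (fun (y : ℤ → ℤ) (i : Fin n) => y i) '' K

theorem wK_finite {K : Set (ℤ → ℤ)} (hb : ∀ y ∈ K, ∀ n, |y n| ≤ 1) (n : ℕ) : (wK K n).Finite := by
  apply Set.Finite.subset (Set.Finite.pi' (fun _ : Fin n => Set.finite_Icc (-1 : ℤ) 1))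
  rintro _ ⟨y, hy, rfl⟩
  intro i
  exact abs_le.1 (hb y hy i)

theorem cover {K : Set (ℤ → ℤ)} (hb : ∀ y ∈ K, ∀ n, |y n| ≤ 1) (hK : ∀ y, shZ y ∈ K ↔ y ∈ K)
    (U : Set ((ℤ → ℤ) × (ℤ → ℤ))) (M : ℕ)
    (hM : ∀ x y : ℤ → ℤ, (∀ i : ℤ, -(M : ℤ) ≤ i → i ≤ M → x i = y i) → (x, y) ∈ U) (n : ℕ) :
    Dynamics.coverMincard (⇑shZ) K U n ≤ ((wK K (n + 2 * M + 1)).ncard : ℕ∞) := by
  classical
  set W := wK K (n + 2 * M + 1) with hW
  have hf : W.Finite := wK_finite hb _
  have hch : ∀ w : Fin (n + 2 * M + 1) → ℤ, ∃ y : ℤ → ℤ, w ∈ W → (y ∈ K ∧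
      ∀ i : Fin (n + 2 * M + 1), y i = w i) := by
    intro w
    by_cases hw : w ∈ W
    · obtain ⟨y, hy, h⟩ := hw
      exact ⟨y, fun _ => ⟨hy, fun i => congrFun h i⟩⟩
    · exact ⟨0, fun h => absurd h hw⟩
  choose c hc using hch
  set s : Finset (ℤ → ℤ) := hf.toFinset.image fun w => (⇑shZ)^[M] (c w) with hs
  have hcov : Dynamics.IsDynCoverOf (⇑shZ) K U n (s : Set (ℤ → ℤ)) := by
    intro x hx
    have hx' := mem_back hK M hx
    set x' : ℤ → ℤ := fun n : ℤ => x (n - M) with hx'd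
    have hwW : (fun i : Fin (n + 2 * M + 1) => x' i) ∈ W := ⟨x', hx', rfl⟩
    obtain ⟨h1, h2⟩ := hc _ hwW
    refine ⟨(⇑shZ)^[M] (c fun i : Fin (n + 2 * M + 1) => x' i), ?_, ?_⟩
    · rw [hs]
      simp only [Finset.coe_image, Set.mem_image, Finset.mem_coe, Set.Finite.mem_toFinset]
      exact ⟨_, hwW, rfl⟩
    · rw [Dynamics.mem_dynEntourage]
      intro k hk
      apply hM
      intro i hi1 hi2
      rw [← Function.iterate_add_apply, iter_apply, iter_apply]
      have h3 := h2 ⟨(i + k + M).toNat, by omega⟩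
      have h4 : (((⟨(i + k + M).toNat, by omega⟩ : Fin (n + 2 * M + 1)) : ℕ) : ℤ) = i + k + M := by
        simp only
        omega
      rw [h4] at h3
      have h5 : i + ((k + M : ℕ) : ℤ) = i + k + M := by push_cast; ring
      rw [h5, h3, hx'd]
      simp
  refine hcov.coverMincard_le_card.trans ?_
  have h6 : s.card ≤ W.ncard := by
    rw [Set.ncard_eq_toFinset_card W hf]
    exact Finset.card_image_le
  exact_mod_cast h6

theorem t_ZEA : S_ZEA := by
  intro K hKc hKn hb hK hC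
  apply le_antisymm _ (Dynamics.coverEntropy_nonneg _ hKn)
  unfold Dynamics.coverEntropy
  refine iSup₂_le fun U hU => ?_
  obtain ⟨M, hM⟩ := basic_ent U hU
  unfold Dynamics.coverEntropyEntourage
  rw [ExpGrowth.expGrowthSup_le_iff]
  intro b hb0
  obtain ⟨c, hc0, hcb⟩ := EReal.lt_iff_exists_real_btwn.1 hb0
  have hc : 0 < c := by exact_mod_cast hc0
  have hl2 : 0 < Real.log 2 := Real.log_pos (by norm_num)
  obtain ⟨C, hC'⟩ := hC (c / (2 * Real.log 2)) (by positivity)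
  have hev : ∀ᶠ n : ℕ in atTop, C * Real.exp (c * (2 * M + 1) / 2) ≤ Real.exp (c / 2 * n) := by
    have ht : Tendsto (fun n : ℕ => Real.exp (c / 2 * n)) atTop atTop :=
      Real.tendsto_exp_atTop.comp
        (tendsto_natCast_atTop_atTop.const_mul_atTop (by positivity : 0 < c / 2))
    exact ht.eventually_ge_atTop _
  filter_upwards [hev] with n hn
  have h1 := cover hb hK U M hM n
  have h2 := hC' (n + 2 * M + 1)
  have h3 : (2 : ℝ) ^ (c / (2 * Real.log 2) * ((n + 2 * M + 1 : ℕ) : ℝ)) =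
      Real.exp (c * (2 * M + 1) / 2) * Real.exp (c / 2 * n) := by
    rw [Real.rpow_def_of_pos (by norm_num), ← Real.exp_add]
    congr 1
    push_cast
    field_simp
    ring
  have h4 : ((wK K (n + 2 * M + 1)).ncard : ℝ) ≤ Real.exp (c * n) := by
    refine h2.trans ?_
    rw [h3, ← mul_assoc]
    calc C * Real.exp (c * (2 * M + 1) / 2) * Real.exp (c / 2 * n)
        ≤ Real.exp (c / 2 * n) * Real.exp (c / 2 * n) :=
          mul_le_mul_of_nonneg_right hn (Real.exp_pos _).le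
      _ = Real.exp (c * n) := by rw [← Real.exp_add]; congr 1; ring
  calc ((Dynamics.coverMincard (⇑shZ) K U n : ℕ∞) : ENNReal)
      ≤ (((wK K (n + 2 * M + 1)).ncard : ℕ∞) : ENNReal) := ENat.toENNReal_mono h1
    _ = ENNReal.ofReal ((wK K (n + 2 * M + 1)).ncard : ℝ) := by simp
    _ ≤ ENNReal.ofReal (Real.exp (c * n)) := ENNReal.ofReal_le_ofReal h4
    _ = EReal.exp (((c * n : ℝ) : ℝ) : EReal) := (EReal.exp_coe _).symm
    _ ≤ EReal.exp (b * n) := by
      apply EReal.exp_monotone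
      push_cast
      gcongr

end Pool.Agent.Helper87.MB
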